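import Mathlib
import Pool.Agent.N535.Defs

set_option autoImplicit false
set_option linter.all false
open scoped ContDiff Manifold Topology Matrix RealInnerProductSpace
open Set

namespace Pool.Agent.N564.RF3

open Pool.Agent.QTot (Eu Mt pd Jac Gam Ric)
open Pool.Agent.QTot.N2
open Pool.Agent.H858R2 (En ctarget ctrn)
open Pool.Agent.N535

theorem contDiff_ofLp4 : ContDiff ℝ ∞ (fun x : E4 => WithLp.ofLp x) :=
  (PiLp.continuousLinearEquiv 2 ℝ (fun _ : Fin 4 => ℝ)).contDiff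

theorem contDiff_toLp4 : ContDiff ℝ ∞ (fun x : Fin 4 → ℝ => (WithLp.toLp 2 x : E4)) :=
  (PiLp.continuousLinearEquiv 2 ℝ (fun _ : Fin 4 => ℝ)).symm.contDiff

theorem contDiff_ofLp3 : ContDiff ℝ ∞ (fun x : En 3 => WithLp.ofLp x) :=
  (PiLp.continuousLinearEquiv 2 ℝ (fun _ : Fin 3 => ℝ)).contDiff

theorem contDiff_toLp3 : ContDiff ℝ ∞ (fun x : Eu 3 => (WithLp.toLp 2 x : En 3)) :=
  (PiLp.continuousLinearEquiv 2 ℝ (fun _ : Fin 3 => ℝ)).symm.contDiff

theorem chart_pkg (e : OpenPartialHomeomorph S3 (En 3)) (he : e ∈ atlas (En 3) S3) :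
    e.target = univ ∧ ∃ (P : Eu 3 → (Fin 4 → ℝ)) (R : (Fin 4 → ℝ) → Eu 3) (O : Set (Fin 4 → ℝ)),
      ContDiff ℝ ∞ P ∧ IsOpen O ∧ ContDiffOn ℝ ∞ R O ∧
      (∀ y, P y ∈ O) ∧ (∀ y, R (P y) = y) ∧
      (∀ y, N535.amb (e.symm (WithLp.toLp 2 y)) = P y) ∧
      (∀ x : S3, x ∈ e.source ↔ N535.amb x ∈ O) ∧
      (∀ x : S3, x ∈ e.source → WithLp.ofLp (e x) = R (N535.amb x)) ∧
      (∀ x : S3, x ∈ e.source → P (R (N535.amb x)) = N535.amb x) ∧
      (∀ y, ∑ i, P y i ^ 2 = 1) := by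
  obtain ⟨v, rfl⟩ : ∃ v : S3, e = stereographic' 3 v := he
  have htar : (stereographic' 3 v).target = univ := stereographic'_target v
  refine ⟨htar, ?_⟩
  have hv : ‖(v : E4)‖ = 1 := norm_eq_of_mem_sphere v
  set U : (ℝ ∙ (v : E4))ᗮ ≃ₗᵢ[ℝ] En 3 :=
    (OrthonormalBasis.fromOrthogonalSpanSingleton (𝕜 := ℝ) 3 (ne_zero_of_mem_unit_sphere v)).repr
    with hU
  have hsymm : ∀ z : En 3, (((stereographic' 3 v).symm z : S3) : E4) =
      stereoInvFunAux (v : E4) ((U.symm z : (ℝ ∙ (v : E4))ᗮ) : E4) := fun z => rfl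
  have happ : ∀ x : S3, (stereographic' 3 v) x = U (stereoToFun (v : E4) (x : E4)) := fun x => rfl
  have hsrc : ∀ x : S3, x ∈ (stereographic' 3 v).source ↔ innerSL ℝ (v : E4) (x : E4) ≠ 1 := by
    intro x
    rw [stereographic'_source]
    simp only [Set.mem_compl_iff, Set.mem_singleton_iff, innerSL_apply_apply, ne_eq]
    rw [sphere_ext_iff, real_inner_comm]
  refine ⟨fun y => WithLp.ofLp (stereoInvFunAux (v : E4) ((U.symm (WithLp.toLp 2 y) :
      (ℝ ∙ (v : E4))ᗮ) : E4)), fun x => WithLp.ofLp (U (stereoToFun (v : E4) (WithLp.toLp 2 x))),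
    {x | innerSL ℝ (v : E4) (WithLp.toLp 2 x : E4) ≠ 1}, ?_, ?_, ?_, ?_, ?_, ?_, ?_, ?_, ?_, ?_⟩
  · refine contDiff_ofLp4.comp ?_
    refine (contDiff_stereoInvFunAux (m := ∞) (v := (v : E4))).comp ?_
    exact ((ℝ ∙ (v : E4))ᗮ.subtypeL.contDiff.comp U.symm.contDiff).comp contDiff_toLp3
  · have hc : Continuous fun x : Fin 4 → ℝ => innerSL ℝ (v : E4) (WithLp.toLp 2 x : E4) :=
      (innerSL ℝ (v : E4)).continuous.comp contDiff_toLp4.continuous
    exact isOpen_ne_fun hc continuous_const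
  · refine contDiff_ofLp3.comp_contDiffOn ?_
    refine U.contDiff.comp_contDiffOn ?_
    exact (contDiffOn_stereoToFun (n := ∞) (v := (v : E4))).comp contDiff_toLp4.contDiffOn
      (fun x hx => hx)
  · intro y
    have h1 : (stereographic' 3 v).symm (WithLp.toLp 2 y) ∈ (stereographic' 3 v).source :=
      (stereographic' 3 v).map_target (by rw [htar]; trivial)
    exact (hsrc _).1 h1
  · intro y
    have h1 : (stereographic' 3 v) ((stereographic' 3 v).symm (WithLp.toLp 2 y)) = WithLp.toLp 2 y :=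
      (stereographic' 3 v).right_inv (by rw [htar]; trivial)
    have h2 := congrArg WithLp.ofLp h1
    exact h2
  · intro y
    rfl
  · intro x
    exact hsrc x
  · intro x _
    rfl
  · intro x hx
    have h1 : (stereographic' 3 v).symm ((stereographic' 3 v) x) = x :=
      (stereographic' 3 v).left_inv hx
    have h2 := congrArg N535.amb h1
    exact h2
  · intro y
    have h1 : ‖(((stereographic' 3 v).symm (WithLp.toLp 2 y) : S3) : E4)‖ = 1 :=
      norm_eq_of_mem_sphere _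
    have h2 := EuclideanSpace.norm_sq_eq (((stereographic' 3 v).symm (WithLp.toLp 2 y) : S3) : E4)
    rw [h1] at h2
    simp only [Real.norm_eq_abs, sq_abs, one_pow] at h2
    exact h2.symm

/-! ## the ambient form -/

theorem JP_mulVec {P : Eu 3 → (Fin 4 → ℝ)} {y : Eu 3} (hP : DifferentiableAt ℝ P y) (ξ : Eu 3) :
    (JP P y).mulVec ξ = fderiv ℝ P y ξ := by
  ext a
  have h2 : ∀ i, JP P y a i = (fderiv ℝ P y (Pi.single i 1)) a := by
    intro i
    have := (hasFDerivAt_pi'.1 hP.hasFDerivAt a).fderiv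
    simp only [JP, Matrix.of_apply, pd]
    rw [this]
    rfl
  have h3 : ξ = ∑ d, ξ d • (Pi.single d 1 : Eu 3) := by
    ext e
    simp [Finset.sum_apply, Pi.single_apply]
  conv_rhs => rw [h3]
  rw [map_sum, Finset.sum_apply]
  simp only [Matrix.mulVec, dotProduct]
  refine Finset.sum_congr rfl fun d _ => ?_
  rw [map_smul, Pi.smul_apply, smul_eq_mul, h2 d, mul_comm]

theorem JP_inj {P : Eu 3 → (Fin 4 → ℝ)} {R : (Fin 4 → ℝ) → Eu 3} {y : Eu 3}
    (hP : DifferentiableAt ℝ P y) (hR : DifferentiableAt ℝ R (P y)) (hRP : ∀ y, R (P y) = y) :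
    Function.Injective (JP P y).mulVec := by
  intro ξ η h
  rw [JP_mulVec hP, JP_mulVec hP] at h
  have h1 : HasFDerivAt (fun z => R (P z)) ((fderiv ℝ R (P y)).comp (fderiv ℝ P y)) y :=
    hR.hasFDerivAt.comp y hP.hasFDerivAt
  have h2 : HasFDerivAt (fun z => R (P z)) (ContinuousLinearMap.id ℝ (Eu 3)) y := by
    have : (fun z => R (P z)) = fun z => z := funext hRP
    rw [this]
    exact hasFDerivAt_id y
  have h3 := h1.unique h2
  have h4 : ∀ ζ, fderiv ℝ R (P y) (fderiv ℝ P y ζ) = ζ := by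
    intro ζ
    have := congrArg (fun L : Eu 3 →L[ℝ] Eu 3 => L ζ) h3
    exact this
  rw [← h4 ξ, ← h4 η, h]

/-- chain rule for `JP` -/
theorem JP_comp {P : Eu 3 → (Fin 4 → ℝ)} {φ : Eu 3 → Eu 3} {y : Eu 3}
    (hφ : DifferentiableAt ℝ φ y) (hP : DifferentiableAt ℝ P (φ y)) :
    JP (fun z => P (φ z)) y = JP P (φ y) * Jac φ y := by
  ext a i
  simp only [JP, Matrix.of_apply, Matrix.mul_apply]
  exact pd_comp' (F := fun z => P z a) hφ (differentiableAt_pi.1 hP a)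

theorem JP_congr {P Q : Eu 3 → (Fin 4 → ℝ)} {y : Eu 3} (h : P =ᶠ[𝓝 y] Q) : JP P y = JP Q y := by
  ext a i
  simp only [JP, Matrix.of_apply]
  exact pd_congr (h.mono fun z hz => by simp only [hz])

theorem contDiff_JP {P : Eu 3 → (Fin 4 → ℝ)} (hP : ContDiff ℝ ∞ P) (a : Fin 4) (i : Fin 3) :
    ContDiff ℝ ∞ (fun y => JP P y a i) := by
  have h1 : ContDiff ℝ ∞ (fun y => P y a) := contDiff_pi.1 hP a
  have h2 : ContDiff ℝ ∞ (fderiv ℝ (fun y => P y a)) := h1.fderiv_right (by simp)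
  exact h2.clm_apply contDiff_const

/-- scalar product of `ℝ⁴` -/
def d4 (v w : Fin 4 → ℝ) : ℝ := v 0 * w 0 + v 1 * w 1 + v 2 * w 2 + v 3 * w 3

theorem d4_comm (v w : Fin 4 → ℝ) : d4 v w = d4 w v := by simp only [d4]; ring

theorem pullA_entry (P : Eu 3 → (Fin 4 → ℝ)) (α β : ℝ → ℝ) (u : Eu 3) (i j : Fin 3) :
    pullA P α β u i j =
      α (P u 0) * d4 (fun a => JP P u a i) (fun a => JP P u a j)
      + β (P u 0) * (JP P u 0 i * JP P u 0 j) := by
  simp only [pullA, Matrix.mul_apply, ambG, Matrix.of_apply, Matrix.transpose_apply, Fin.sum_univ_four,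
    d4]
  simp [Fin.ext_iff]
  ring

theorem pullA_symm (P : Eu 3 → (Fin 4 → ℝ)) (α β : ℝ → ℝ) (y : Eu 3) :
    (pullA P α β y).IsSymm := by
  ext i j
  rw [Matrix.transpose_apply, pullA_entry, pullA_entry, d4_comm]
  ring

/-- the value of the quadratic form -/
theorem pullA_quad (P : Eu 3 → (Fin 4 → ℝ)) (α β : ℝ → ℝ) (u : Eu 3) (ξ : Eu 3) :
    ξ ⬝ᵥ (pullA P α β u).mulVec ξ =
      α (P u 0) * d4 ((JP P u).mulVec ξ) ((JP P u).mulVec ξ)
      + β (P u 0) * ((JP P u).mulVec ξ 0) ^ 2 := by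
  have h1 : (pullA P α β u).mulVec ξ = (JP P u)ᵀ.mulVec ((ambG α β (P u)).mulVec ((JP P u).mulVec ξ)) := by
    rw [Matrix.mulVec_mulVec, Matrix.mulVec_mulVec]
    rfl
  rw [h1, Matrix.dotProduct_mulVec, Matrix.vecMul_transpose]
  generalize (JP P u).mulVec ξ = w
  simp only [Matrix.mulVec, dotProduct, ambG, Matrix.of_apply, Fin.sum_univ_four, d4]
  simp [Fin.ext_iff]
  ring

theorem x0_mem {x : Fin 4 → ℝ} (hx : ∑ i, x i ^ 2 = 1) : x 0 ∈ Icc (-1:ℝ) 1 := by
  rw [Fin.sum_univ_four] at hx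
  constructor <;> nlinarith [sq_nonneg (x 1), sq_nonneg (x 2), sq_nonneg (x 3), sq_nonneg (x 0 - 1),
    sq_nonneg (x 0 + 1)]

/-- tangent vectors are orthogonal to the position vector -/
theorem tangent {P : Eu 3 → (Fin 4 → ℝ)} {y : Eu 3} (hP : DifferentiableAt ℝ P y)
    (h1 : ∀ y, ∑ i, P y i ^ 2 = 1) (ξ : Eu 3) : d4 (P y) ((JP P y).mulVec ξ) = 0 := by
  rw [JP_mulVec hP]
  have hc : ∀ a, HasFDerivAt (fun z => P z a) ((ContinuousLinearMap.proj a).comp (fderiv ℝ P y)) y :=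
    fun a => (hasFDerivAt_pi'.1 hP.hasFDerivAt) a
  have h2 : HasFDerivAt (fun z => ∑ a, P z a ^ 2)
      (∑ a, (2 * P y a) • ((ContinuousLinearMap.proj a).comp (fderiv ℝ P y) : Eu 3 →L[ℝ] ℝ)) y := by
    have h3 := HasFDerivAt.fun_sum (u := Finset.univ) (fun a _ => (hc a).pow 2)
    refine h3.congr_fderiv ?_
    refine Finset.sum_congr rfl fun a _ => ?_
    simp
  have h4 : (fun z => ∑ a, P z a ^ 2) = fun _ => (1 : ℝ) := funext h1
  rw [h4] at h2
  have h5 := h2.unique (hasFDerivAt_const (1:ℝ) y)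
  have h6 := congrArg (fun L : Eu 3 →L[ℝ] ℝ => L ξ) h5
  simp only [Fin.sum_univ_four, add_apply, smul_apply, ContinuousLinearMap.comp_apply,
    ContinuousLinearMap.proj_apply, smul_eq_mul, zero_apply] at h6
  simp only [d4]
  linear_combination h6 / 2

/-- positivity on tangent vectors -/
theorem form_pos {α β : ℝ} {x w : Fin 4 → ℝ} (hx : ∑ i, x i ^ 2 = 1) (h0 : 0 < α)
    (h1 : 0 < α + β * (1 - x 0 ^ 2)) (ht : d4 x w = 0) (hw : w ≠ 0) :
    0 < α * d4 w w + β * (w 0) ^ 2 := by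
  rw [Fin.sum_univ_four] at hx
  have hn : 0 < d4 w w := by
    have h2 : 0 ≤ d4 w w := by simp only [d4]; nlinarith [sq_nonneg (w 0), sq_nonneg (w 1), sq_nonneg (w 2), sq_nonneg (w 3)]
    refine lt_of_le_of_ne h2 ?_
    intro h3
    apply hw
    simp only [d4] at h3
    have a0 := mul_self_nonneg (w 0)
    have a1 := mul_self_nonneg (w 1)
    have a2 := mul_self_nonneg (w 2)
    have a3 := mul_self_nonneg (w 3)
    have b0 : w 0 = 0 := mul_self_eq_zero.1 (by linarith)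
    have b1 : w 1 = 0 := mul_self_eq_zero.1 (by linarith)
    have b2 : w 2 = 0 := mul_self_eq_zero.1 (by linarith)
    have b3 : w 3 = 0 := mul_self_eq_zero.1 (by linarith)
    ext a
    fin_cases a
    · exact b0
    · exact b1
    · exact b2
    · exact b3
  have hle : (w 0) ^ 2 ≤ (1 - x 0 ^ 2) * d4 w w := by
    have h2 : x 0 * w 0 = -(x 1 * w 1 + x 2 * w 2 + x 3 * w 3) := by
      simp only [d4] at ht; linarith
    have h3 : (x 1 * w 1 + x 2 * w 2 + x 3 * w 3) ^ 2 ≤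
        (x 1 ^ 2 + x 2 ^ 2 + x 3 ^ 2) * (w 1 ^ 2 + w 2 ^ 2 + w 3 ^ 2) := by
      nlinarith [sq_nonneg (x 1 * w 2 - x 2 * w 1), sq_nonneg (x 1 * w 3 - x 3 * w 1),
        sq_nonneg (x 2 * w 3 - x 3 * w 2)]
    have h4 : (x 0 * w 0) ^ 2 ≤ (1 - x 0 ^ 2) * (w 1 ^ 2 + w 2 ^ 2 + w 3 ^ 2) := by
      rw [h2, neg_sq]
      have : x 1 ^ 2 + x 2 ^ 2 + x 3 ^ 2 = 1 - x 0 ^ 2 := by linarith
      rw [this] at h3
      exact h3
    simp only [d4]
    nlinarith
  rcases le_or_gt 0 β with hb | hb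
  · have : 0 < α * d4 w w := mul_pos h0 hn
    have : 0 ≤ β * (w 0) ^ 2 := by positivity
    linarith
  · have h5 : β * ((1 - x 0 ^ 2) * d4 w w) ≤ β * (w 0) ^ 2 :=
      mul_le_mul_of_nonpos_left hle hb.le
    have h6 : 0 < (α + β * (1 - x 0 ^ 2)) * d4 w w := mul_pos h1 hn
    nlinarith

theorem d4_smooth {P : Eu 3 → (Fin 4 → ℝ)} (hP : ContDiff ℝ ∞ P) (i j : Fin 3) :
    ContDiff ℝ ∞ (fun y => d4 (fun a => JP P y a i) (fun a => JP P y a j)) := by
  simp only [d4]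
  exact ((((contDiff_JP hP 0 i).mul (contDiff_JP hP 0 j)).add
    ((contDiff_JP hP 1 i).mul (contDiff_JP hP 1 j))).add
    ((contDiff_JP hP 2 i).mul (contDiff_JP hP 2 j))).add
    ((contDiff_JP hP 3 i).mul (contDiff_JP hP 3 j))

theorem pullA_smooth {P : Eu 3 → (Fin 4 → ℝ)} (hP : ContDiff ℝ ∞ P) (h1 : ∀ y, ∑ i, P y i ^ 2 = 1)
    {α β : ℝ → ℝ} {O : Set ℝ} (hO : IsOpen O) (hI : Icc (-1 : ℝ) 1 ⊆ O)
    (hα : ContDiffOn ℝ ∞ α O) (hβ : ContDiffOn ℝ ∞ β O) (i j : Fin 3) :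
    ContDiff ℝ ∞ (fun y => pullA P α β y i j) := by
  have hc : ∀ {φ : ℝ → ℝ}, ContDiffOn ℝ ∞ φ O → ContDiff ℝ ∞ (fun y => φ (P y 0)) := by
    intro φ hφ
    rw [contDiff_iff_contDiffAt]
    intro y
    exact (hφ.contDiffAt (hO.mem_nhds (hI (x0_mem (h1 y))))).comp y (contDiff_pi.1 hP 0).contDiffAt
  have e : (fun y => pullA P α β y i j) = fun y =>
      α (P y 0) * d4 (fun a => JP P y a i) (fun a => JP P y a j)
      + β (P y 0) * (JP P y 0 i * JP P y 0 j) := by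
    funext y; exact pullA_entry _ _ _ _ _ _
  rw [e]
  exact ((hc hα).mul (d4_smooth hP i j)).add ((hc hβ).mul ((contDiff_JP hP 0 i).mul (contDiff_JP hP 0 j)))

theorem pullA_cont {P : Eu 3 → (Fin 4 → ℝ)} (hP : ContDiff ℝ ∞ P) (h1 : ∀ y, ∑ i, P y i ^ 2 = 1)
    {α β : ℝ → ℝ} (hα : ContinuousOn α (Icc (-1 : ℝ) 1)) (hβ : ContinuousOn β (Icc (-1 : ℝ) 1))
    (i j : Fin 3) : Continuous (fun y => pullA P α β y i j) := by
  have hc : ∀ {φ : ℝ → ℝ}, ContinuousOn φ (Icc (-1 : ℝ) 1) → Continuous (fun y => φ (P y 0)) := by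
    intro φ hφ
    exact hφ.comp_continuous (contDiff_pi.1 hP 0).continuous (fun y => x0_mem (h1 y))
  have e : (fun y => pullA P α β y i j) = fun y =>
      α (P y 0) * d4 (fun a => JP P y a i) (fun a => JP P y a j)
      + β (P y 0) * (JP P y 0 i * JP P y 0 j) := by
    funext y; exact pullA_entry _ _ _ _ _ _
  rw [e]
  exact ((hc hα).mul (d4_smooth hP i j).continuous).add
    ((hc hβ).mul ((contDiff_JP hP 0 i).continuous.mul (contDiff_JP hP 0 j).continuous))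

/-- TARGET G1 -/
theorem stMetric : StMetric := by
  intro α β O hO hI hα hβ hpos
  refine ⟨⟨fun e => pullA (Pinv e) α β, ?_, ?_, ?_⟩, fun e => rfl⟩
  · intro e he i j
    obtain ⟨htar, P, R, O', hP, hO', hR, hPO, hRP, hP', hs, hR', hPR, h1⟩ := chart_pkg e he
    have hPe : Pinv e = P := funext hP'
    rw [hPe]
    exact (pullA_smooth hP h1 hO hI hα hβ i j).contDiffOn
  · intro e he y hy
    obtain ⟨htar, P, R, O', hP, hO', hR, hPO, hRP, hP', hs, hR', hPR, h1⟩ := chart_pkg e he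
    have hPe : Pinv e = P := funext hP'
    rw [hPe]
    obtain ⟨p1, p2⟩ := hpos _ (x0_mem (h1 y))
    have hPd : DifferentiableAt ℝ P y := hP.differentiable (by simp) y
    have hRd : DifferentiableAt ℝ R (P y) :=
      (hR.contDiffAt (hO'.mem_nhds (hPO y))).differentiableAt (by simp)
    refine Matrix.PosDef.of_dotProduct_mulVec_pos ?_ ?_
    · rw [Matrix.IsHermitian, Matrix.conjTranspose_eq_transpose_of_trivial]
      exact pullA_symm P α β y
    · intro ξ hξ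
      rw [star_trivial, pullA_quad]
      refine form_pos (h1 y) p1 p2 (tangent hPd h1 ξ) ?_
      intro h0
      apply hξ
      apply JP_inj hPd hRd hRP
      rw [h0, Matrix.mulVec_zero]
  · intro e he e' he' y hy hs'
    obtain ⟨htar, P, R, O', hP, hO', hR, hPO, hRP, hP', hs, hR', hPR, h1⟩ := chart_pkg e he
    obtain ⟨htar2, Q, R2, O2, hQ, hO2, hR2, hQO2, hRQ2, hQ', hs2, hR2', hQR2, h12⟩ :=
      chart_pkg e' he'
    have hPe : Pinv e = P := funext hP'
    have hQe : Pinv e' = Q := funext hQ'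
    simp only [hPe, hQe]
    have hin : P y ∈ O2 := by rw [← hP' y]; exact (hs2 _).1 hs'
    have hc : ∀ z, P z ∈ O2 → ctrn e e' z = R2 (P z) := by
      intro z hz
      have hz' : e.symm (WithLp.toLp 2 z) ∈ e'.source := (hs2 _).2 (by rw [hP' z]; exact hz)
      rw [← hP' z]
      exact hR2' _ hz'
    have hq : ∀ z, P z ∈ O2 → Q (ctrn e e' z) = P z := by
      intro z hz
      have hz' : e.symm (WithLp.toLp 2 z) ∈ e'.source := (hs2 _).2 (by rw [hP' z]; exact hz)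
      rw [hc z hz, ← hP' z]
      exact hQR2 _ hz'
    have hnh : ∀ᶠ z in 𝓝 y, P z ∈ O2 := hP.continuous.continuousAt.eventually (hO2.mem_nhds hin)
    have hPd : DifferentiableAt ℝ P y := hP.differentiable (by simp) y
    have hRd : DifferentiableAt ℝ R2 (P y) :=
      (hR2.contDiffAt (hO2.mem_nhds hin)).differentiableAt (by simp)
    have hcd : DifferentiableAt ℝ (ctrn e e') y := by
      have h := hRd.comp y hPd
      exact h.congr_of_eventuallyEq (hnh.mono fun z hz => hc z hz)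
    have hQd : DifferentiableAt ℝ Q (ctrn e e' y) := hQ.differentiable (by simp) _
    have hJ : JP P y = JP Q (ctrn e e' y) * Jac (ctrn e e') y := by
      rw [← JP_comp hcd hQd]
      exact JP_congr (hnh.mono fun z hz => (hq z hz).symm)
    simp only [pullA]
    rw [hJ, hq y hin, Matrix.transpose_mul]
    simp only [Matrix.mul_assoc]

end Pool.Agent.N564.RF3
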