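import Mathlib
import Pool.Agent.N535.Defs
import Pool.Agent.N564.RF3.Chart

set_option autoImplicit false
set_option linter.all false
open scoped ContDiff Manifold Topology Matrix RealInnerProductSpace
open Set

namespace Pool.Agent.N564.RF3

open Pool.Agent.QTot (Eu Mt pd Jac Gam Ric)
open Pool.Agent.QTot.N2
open Pool.Agent.H858R2 (En ctarget ctrn)
open Pool.Agent.N535

theorem norm_sq_d4 (w : E4) : ‖w‖ ^ 2 = d4 (WithLp.ofLp w) (WithLp.ofLp w) := by
  rw [EuclideanSpace.norm_sq_eq, Fin.sum_univ_four]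
  simp only [Real.norm_eq_abs, sq_abs, d4]
  ring

theorem quad_expand (A : Mt 3) (ξ : Eu 3) :
    ∑ i, ∑ j, A i j * ξ i * ξ j = ξ ⬝ᵥ A.mulVec ξ := by
  simp only [dotProduct, Matrix.mulVec, Finset.mul_sum]
  refine Finset.sum_congr rfl fun i _ => Finset.sum_congr rfl fun j _ => by ring

theorem mfderiv_incl (p : S3) (u : TangentSpace (𝓡 3) p) :
    (mfderiv (𝓡 3) 𝓘(ℝ, E4) (fun q : S3 => (q : E4)) p u : E4) =
      fderiv ℝ (fun z : En 3 => (((chartAt (En 3) p).symm z : S3) : E4)) (chartAt (En 3) p p)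
        (u : En 3) := by
  have hm : MDifferentiableAt (𝓡 3) 𝓘(ℝ, E4) (fun q : S3 => (q : E4)) p :=
    (contMDiff_coe_sphere (E := E4) (n := 3) (m := 1)).mdifferentiableAt (by simp)
  have h1 := hm.mfderiv
  have h2 : fderivWithin ℝ (writtenInExtChartAt (𝓡 3) 𝓘(ℝ, E4) p fun q : S3 => (q : E4))
      (range (𝓡 3)) (extChartAt (𝓡 3) p p) =
      fderiv ℝ (fun z : En 3 => (((chartAt (En 3) p).symm z : S3) : E4)) (chartAt (En 3) p p) := by
    have e1 : range (𝓡 3) = univ := ModelWithCorners.range_eq_univ _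
    rw [e1, fderivWithin_univ]
    rfl
  rw [h1]
  exact congrArg (fun L : En 3 →L[ℝ] E4 => L u) h2

/-- TARGET Val -/
theorem stVal : StVal := by
  intro h g hg p u
  have he : chartAt (En 3) p ∈ atlas (En 3) S3 := chart_mem_atlas _ p
  have hsrc : p ∈ (chartAt (En 3) p).source := mem_chart_source _ p
  obtain ⟨htar, P, R, O', hP, hO', hR, hPO, hRP, hPe, hsrc', hRe, hPR, hsum⟩ :=
    chart_pkg (chartAt (En 3) p) he
  have hPinv : Pinv (chartAt (En 3) p) = P := by
    funext y; exact hPe y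
  set y : Eu 3 := WithLp.ofLp (chartAt (En 3) p p) with hy
  have hyp : P y = amb p := by
    rw [← hPe y, hy]
    show amb ((chartAt (En 3) p).symm (chartAt (En 3) p p)) = amb p
    rw [(chartAt (En 3) p).left_inv hsrc]
  have h1 : sq g p u = WithLp.ofLp (u : En 3) ⬝ᵥ
      (pullA P (fun x => h x ^ 2) (fun _ => 0) y).mulVec (WithLp.ofLp (u : En 3)) := by
    have e1 := quad_expand (g.G (chartAt (En 3) p) (WithLp.ofLp (chartAt (En 3) p p)))
      (WithLp.ofLp (u : En 3))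
    rw [hg _ he, hPinv] at e1
    unfold N535.sq
    rw [hg _ he, hPinv]
    exact e1
  have hPd : DifferentiableAt ℝ P y := hP.differentiable (by simp) y
  rw [h1, pullA_quad, JP_mulVec hPd]
  have h2 : (mfderiv (𝓡 3) 𝓘(ℝ, E4) (fun q : S3 => (q : E4)) p u : E4) =
      WithLp.toLp 2 (fderiv ℝ P y (WithLp.ofLp (u : En 3))) := by
    rw [mfderiv_incl]
    have hf : (fun z : En 3 => (((chartAt (En 3) p).symm z : S3) : E4)) =
        fun z : En 3 => (PiLp.continuousLinearEquiv 2 ℝ (fun _ : Fin 4 => ℝ)).symm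
          (P ((PiLp.continuousLinearEquiv 2 ℝ (fun _ : Fin 3 => ℝ)) z)) := by
      funext z
      have := hPe (WithLp.ofLp z)
      apply (PiLp.continuousLinearEquiv 2 ℝ (fun _ : Fin 4 => ℝ)).injective
      rw [ContinuousLinearEquiv.apply_symm_apply]
      exact this
    rw [hf]
    have hd : HasFDerivAt (fun z : En 3 => (PiLp.continuousLinearEquiv 2 ℝ (fun _ : Fin 4 => ℝ)).symm
          (P ((PiLp.continuousLinearEquiv 2 ℝ (fun _ : Fin 3 => ℝ)) z)))
        (((PiLp.continuousLinearEquiv 2 ℝ (fun _ : Fin 4 => ℝ)).symm :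
            (Fin 4 → ℝ) →L[ℝ] PiLp 2 (fun _ : Fin 4 => ℝ)).comp
          ((fderiv ℝ P y).comp
            ((PiLp.continuousLinearEquiv 2 ℝ (fun _ : Fin 3 => ℝ)) :
              PiLp 2 (fun _ : Fin 3 => ℝ) →L[ℝ] (Fin 3 → ℝ)))) (chartAt (En 3) p p) := by
      refine HasFDerivAt.comp (chartAt (En 3) p p)
        (PiLp.continuousLinearEquiv 2 ℝ (fun _ : Fin 4 => ℝ)).symm.hasFDerivAt ?_
      refine HasFDerivAt.comp (chartAt (En 3) p p) (g := P) ?_
        (PiLp.continuousLinearEquiv 2 ℝ (fun _ : Fin 3 => ℝ)).hasFDerivAt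
      exact hPd.hasFDerivAt
    rw [hd.fderiv]
    rfl
  rw [rsq]
  simp only
  rw [h2, norm_sq_d4]
  have h3 : P y 0 = (p : E4) 0 := by rw [hyp]; rfl
  rw [h3]
  simp
  
end Pool.Agent.N564.RF3
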