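import Mathlib
import Pool.Agent.N564.RF3.Chart

set_option autoImplicit false
set_option linter.all false
open scoped ContDiff Manifold Topology Matrix
open Set

namespace Pool.Agent.N564.RF3

open Pool.Agent.QTot (Eu Mt pd Jac Gam Ric pull)
open Pool.Agent.QTot
open Pool.Agent.N535 (Krf Kff)

/-- conformal factor of the round metric of `S²` in stereographic coordinates -/
noncomputable def sg (a b : ℝ) : ℝ := 1 / (1 + (a ^ 2 + b ^ 2) / 4) ^ 2

/-- diagonal entries of the warped metric `E(x) dx² + F(x) g_{S²}` -/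
noncomputable def dgv (E F : ℝ → ℝ) (i : Fin 3) (x : Eu 3) : ℝ :=
  match i with
  | 0 => E (x 0)
  | 1 => F (x 0) * sg (x 1) (x 2)
  | 2 => F (x 0) * sg (x 1) (x 2)

/-- the warped metric `E(x) dx² + F(x) g_{S²}` -/
noncomputable def DG (E F : ℝ → ℝ) (x : Eu 3) : Mt 3 := Matrix.diagonal fun i => dgv E F i x

/-- the point `(r, 0, 0)` -/
def pt (r : ℝ) : Eu 3 := ![r, 0, 0]

/-! ## calculus of partial derivatives -/

theorem pd_fn {φ : ℝ → ℝ} {k i : Fin 3} {x : Eu 3} (h : DifferentiableAt ℝ φ (x k)) :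
    pd i (fun y => φ (y k)) x = if i = k then deriv φ (x k) else 0 := by
  have h1 : HasFDerivAt (fun y : Eu 3 => φ (y k))
      ((deriv φ (x k)) • (ContinuousLinearMap.proj k : Eu 3 →L[ℝ] ℝ)) x := by
    have h0 : HasFDerivAt (fun y : Eu 3 => y k) (ContinuousLinearMap.proj k : Eu 3 →L[ℝ] ℝ) x :=
      (ContinuousLinearMap.proj k : Eu 3 →L[ℝ] ℝ).hasFDerivAt
    exact h.hasDerivAt.comp_hasFDerivAt x h0
  unfold pd
  rw [h1.fderiv]
  by_cases hik : i = k
  · subst hik; simp
  · simp [hik, Pi.single_apply, Ne.symm hik, eq_comm]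

theorem diff_fn {φ : ℝ → ℝ} {k : Fin 3} {x : Eu 3} (h : DifferentiableAt ℝ φ (x k)) :
    DifferentiableAt ℝ (fun y : Eu 3 => φ (y k)) x := by
  have h0 : HasFDerivAt (fun y : Eu 3 => y k) (ContinuousLinearMap.proj k : Eu 3 →L[ℝ] ℝ) x :=
      (ContinuousLinearMap.proj k : Eu 3 →L[ℝ] ℝ).hasFDerivAt
  exact (h.hasDerivAt.comp_hasFDerivAt x h0).differentiableAt

theorem pd_const {i : Fin 3} {c : ℝ} {x : Eu 3} : pd i (fun _ => c) x = 0 := by
  unfold pd; simp

theorem pd_neg {i : Fin 3} {f : Eu 3 → ℝ} {x : Eu 3} : pd i (fun y => - f y) x = - pd i f x := by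
  unfold pd; rw [fderiv_fun_neg]; rfl

theorem pd_comp1 {φ : ℝ → ℝ} {f : Eu 3 → ℝ} {i : Fin 3} {x : Eu 3} {c : ℝ}
    (h : HasDerivAt φ c (f x)) (hf : DifferentiableAt ℝ f x) :
    pd i (fun y => φ (f y)) x = c * pd i f x := by
  have h1 : HasFDerivAt (fun y => φ (f y)) (c • fderiv ℝ f x) x :=
    h.comp_hasFDerivAt x hf.hasFDerivAt
  unfold pd
  rw [h1.fderiv]
  rfl

/-! ## the conformal factor -/

/-- coordinate functions are smooth -/
theorem cd_coord (k : Fin 3) : ContDiff ℝ ∞ (fun y : Eu 3 => y k) := contDiff_apply ℝ ℝ k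

theorem qpos (x : Eu 3) (a b : Fin 3) : 0 < 1 + ((x a) ^ 2 + (x b) ^ 2) / 4 := by positivity

theorem cd_sg (a b : Fin 3) : ContDiff ℝ ∞ (fun y : Eu 3 => sg (y a) (y b)) := by
  unfold sg
  refine contDiff_const.div ?_ (fun y => by have := qpos y a b; positivity)
  exact (contDiff_const.add ((((cd_coord a).pow 2).add ((cd_coord b).pow 2)).div_const 4)).pow 2

theorem pd_coord (i k : Fin 3) (x : Eu 3) : pd i (fun y => y k) x = if i = k then 1 else 0 := by
  have := pd_fn (φ := fun t => t) (k := k) (i := i) (x := x) differentiableAt_id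
  rw [this]
  simp

theorem pd_q (a b i : Fin 3) (x : Eu 3) :
    pd i (fun y => 1 + ((y a) ^ 2 + (y b) ^ 2) / 4) x =
      ((if i = a then x a else 0) + (if i = b then x b else 0)) / 2 := by
  have h1 : HasFDerivAt (fun y : Eu 3 => 1 + ((y a) ^ 2 + (y b) ^ 2) / 4)
      ((1 / 2 * x a) • (ContinuousLinearMap.proj a : Eu 3 →L[ℝ] ℝ) +
        (1 / 2 * x b) • (ContinuousLinearMap.proj b : Eu 3 →L[ℝ] ℝ)) x := by
    have ha : HasFDerivAt (fun y : Eu 3 => y a) (ContinuousLinearMap.proj a : Eu 3 →L[ℝ] ℝ) x :=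
      (ContinuousLinearMap.proj a : Eu 3 →L[ℝ] ℝ).hasFDerivAt
    have hb : HasFDerivAt (fun y : Eu 3 => y b) (ContinuousLinearMap.proj b : Eu 3 →L[ℝ] ℝ) x :=
      (ContinuousLinearMap.proj b : Eu 3 →L[ℝ] ℝ).hasFDerivAt
    have h2 := (((ha.pow 2).add (hb.pow 2)).mul_const (1 / 4 : ℝ)).const_add 1
    refine (h2.congr_of_eventuallyEq (Filter.Eventually.of_forall fun y => ?_)).congr_fderiv ?_
    · simp; ring
    · ext v
      simp
      ring
  unfold pd
  rw [h1.fderiv]
  simp only [add_apply, smul_apply, ContinuousLinearMap.proj_apply, Pi.single_apply, smul_eq_mul,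
    @eq_comm _ a i, @eq_comm _ b i]
  split_ifs <;> ring

theorem pd_sg (a b i : Fin 3) (x : Eu 3) :
    pd i (fun y => sg (y a) (y b)) x =
      -((if i = a then x a else 0) + (if i = b then x b else 0)) *
        ((1 + ((x a) ^ 2 + (x b) ^ 2) / 4) ^ 3)⁻¹ := by
  have hq := qpos x a b
  have h1 : HasDerivAt (fun t : ℝ => 1 / t ^ 2) (-2 * ((1 + ((x a) ^ 2 + (x b) ^ 2) / 4) ^ 3)⁻¹)
      (1 + ((x a) ^ 2 + (x b) ^ 2) / 4) := by
    have := (hasDerivAt_pow 2 (1 + ((x a) ^ 2 + (x b) ^ 2) / 4)).inv (by positivity)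
    refine (this.congr_of_eventuallyEq (Filter.Eventually.of_forall fun y => ?_)).congr_deriv ?_
    · simp
    · field_simp
      ring
  have hd : DifferentiableAt ℝ (fun y : Eu 3 => 1 + ((y a) ^ 2 + (y b) ^ 2) / 4) x :=
    ((contDiff_const.add ((((cd_coord a).pow 2).add ((cd_coord b).pow 2)).div_const 4)).differentiable
      (by simp)).differentiableAt
  have h2 := pd_comp1 (i := i) h1 hd
  unfold sg
  rw [h2, pd_q]
  ring

theorem pd_pd_sg (a b m i : Fin 3) (x : Eu 3) (ha : x a = 0) (hb : x b = 0) :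
    pd m (pd i (fun y => sg (y a) (y b))) x =
      -((if i = a ∧ m = a then 1 else 0) + (if i = b ∧ m = b then 1 else 0)) := by
  have h0 : pd i (fun y => sg (y a) (y b)) = fun x =>
      -((if i = a then x a else 0) + (if i = b then x b else 0)) *
        ((1 + ((x a) ^ 2 + (x b) ^ 2) / 4) ^ 3)⁻¹ := by
    funext y; exact pd_sg a b i y
  rw [h0]
  have d1 : DifferentiableAt ℝ (fun x : Eu 3 =>
      -((if i = a then x a else 0) + (if i = b then x b else 0))) x := by
    refine DifferentiableAt.neg (DifferentiableAt.add ?_ ?_)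
    · split_ifs
      · exact (cd_coord a).differentiable (by simp) x
      · exact differentiableAt_const _
    · split_ifs
      · exact (cd_coord b).differentiable (by simp) x
      · exact differentiableAt_const _
  have d2 : DifferentiableAt ℝ (fun x : Eu 3 => ((1 + ((x a) ^ 2 + (x b) ^ 2) / 4) ^ 3)⁻¹) x := by
    have : ContDiff ℝ ∞ (fun x : Eu 3 => ((1 + ((x a) ^ 2 + (x b) ^ 2) / 4) ^ 3)⁻¹) := by
      refine ContDiff.inv ?_ (fun y => by have := qpos y a b; positivity)
      exact (contDiff_const.add ((((cd_coord a).pow 2).add ((cd_coord b).pow 2)).div_const 4)).pow 3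
    exact this.differentiable (by simp) x
  rw [N2.pd_mul' d1 d2, pd_neg]
  have e1 : pd m (fun x : Eu 3 => (if i = a then x a else 0) + (if i = b then x b else 0)) x =
      (if i = a ∧ m = a then 1 else 0) + (if i = b ∧ m = b then 1 else 0) := by
    have c1 : DifferentiableAt ℝ (fun x : Eu 3 => if i = a then x a else 0) x := by
      split_ifs
      · exact (cd_coord a).differentiable (by simp) x
      · exact differentiableAt_const _
    have c2 : DifferentiableAt ℝ (fun x : Eu 3 => if i = b then x b else 0) x := by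
      split_ifs
      · exact (cd_coord b).differentiable (by simp) x
      · exact differentiableAt_const _
    rw [N2.pd_add' c1 c2]
    congr 1
    · by_cases h : i = a
      · simp only [h, true_and, if_true]; rw [pd_coord]
      · simp only [h, false_and, if_false]; rw [pd_const]
    · by_cases h : i = b
      · simp only [h, true_and, if_true]; rw [pd_coord]
      · simp only [h, false_and, if_false]; rw [pd_const]
  rw [e1]
  simp only [ha, hb]
  simp

/-! ## the entries of the metric -/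

/-- the coefficient function of the `k`-th diagonal entry -/
noncomputable def cA (E F : ℝ → ℝ) (k : Fin 3) : ℝ → ℝ :=
  match k with
  | 0 => E
  | 1 => F
  | 2 => F

noncomputable def cS (k : Fin 3) (x : Eu 3) : ℝ :=
  match k with
  | 0 => 1
  | 1 => sg (x 1) (x 2)
  | 2 => sg (x 1) (x 2)

theorem dgv_eq (E F : ℝ → ℝ) (k : Fin 3) : dgv E F k = fun x => cA E F k (x 0) * cS k x := by
  funext x
  fin_cases k <;> simp [dgv, cA, cS]

/-- second derivatives of the conformal factors -/
def cc (k m i : Fin 3) : ℝ :=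
  if (k = 1 ∨ k = 2) ∧ (m = 1 ∨ m = 2) ∧ m = i then -1 else 0

theorem cd_cS (k : Fin 3) : ContDiff ℝ ∞ (cS k) := by
  fin_cases k
  · exact contDiff_const
  · exact cd_sg 1 2
  · exact cd_sg 1 2

theorem cS_pt (k : Fin 3) (r : ℝ) : cS k (pt r) = 1 := by
  fin_cases k <;> simp [cS, pt, sg]

theorem pd_cS_pt (k i : Fin 3) (r : ℝ) : pd i (cS k) (pt r) = 0 := by
  have h1 : pd i (fun y : Eu 3 => sg (y 1) (y 2)) (pt r) = 0 := by
    rw [pd_sg]; simp [pt]
  fin_cases k
  · exact pd_const
  · exact h1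
  · exact h1

theorem pd_pd_cS_pt (k m i : Fin 3) (r : ℝ) : pd m (pd i (cS k)) (pt r) = cc k m i := by
  have h1 : pd m (pd i (fun y : Eu 3 => sg (y 1) (y 2))) (pt r) =
      -((if i = 1 ∧ m = 1 then 1 else 0) + (if i = 2 ∧ m = 2 then 1 else 0)) :=
    pd_pd_sg 1 2 m i (pt r) (by simp [pt]) (by simp [pt])
  have h0 : pd m (pd i (fun y : Eu 3 => (1 : ℝ))) (pt r) = 0 := by
    have : pd i (fun y : Eu 3 => (1 : ℝ)) = fun _ => 0 := by funext y; exact pd_const
    rw [this]; exact pd_const
  fin_cases k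
  · refine h0.trans ?_
    simp [cc]
  · refine h1.trans ?_
    fin_cases i <;> fin_cases m <;> simp [cc]
  · refine h1.trans ?_
    fin_cases i <;> fin_cases m <;> simp [cc]

section
variable {A : ℝ → ℝ} {r : ℝ}

theorem ev_coord {p : ℝ → Prop} (h : ∀ᶠ t in 𝓝 r, p t) : ∀ᶠ x : Eu 3 in 𝓝 (pt r), p (x 0) := by
  have hc : ContinuousAt (fun x : Eu 3 => x 0) (pt r) := (cd_coord 0).continuous.continuousAt
  have : Filter.Tendsto (fun x : Eu 3 => x 0) (𝓝 (pt r)) (𝓝 r) := by
    have := hc.tendsto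
    simpa [pt] using this
  exact this.eventually h

theorem ev_diff (hA : ContDiffAt ℝ ∞ A r) : ∀ᶠ t in 𝓝 r, DifferentiableAt ℝ A t := by
  have := (hA.of_le (m := 1) (by exact_mod_cast le_top)).eventually (by simp)
  exact this.mono fun t ht => ht.differentiableAt (by simp)

theorem pd_prod {k i : Fin 3} {x : Eu 3} (hA : DifferentiableAt ℝ A (x 0)) :
    pd i (fun x => A (x 0) * cS k x) x =
      (if i = 0 then deriv A (x 0) else 0) * cS k x + A (x 0) * pd i (cS k) x := by
  rw [N2.pd_mul' (diff_fn hA) ((cd_cS k).differentiable (by simp) x), pd_fn hA]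

theorem pd_prod_pt {k i : Fin 3} (hA : ContDiffAt ℝ ∞ A r) :
    pd i (fun x => A (x 0) * cS k x) (pt r) = if i = 0 then deriv A r else 0 := by
  have h0 : (pt r) 0 = r := by simp [pt]
  rw [pd_prod (by rw [h0]; exact hA.differentiableAt (by simp)), cS_pt, pd_cS_pt, h0]
  ring

theorem pd_pd_prod_pt {k m i : Fin 3} (hA : ContDiffAt ℝ ∞ A r) :
    pd m (pd i (fun x => A (x 0) * cS k x)) (pt r) =
      (if m = 0 ∧ i = 0 then deriv (deriv A) r else 0) + A r * cc k m i := by
  have h0 : (pt r) 0 = r := by simp [pt]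
  have e : pd i (fun x => A (x 0) * cS k x) =ᶠ[𝓝 (pt r)]
      fun x => (if i = 0 then deriv A (x 0) else 0) * cS k x + A (x 0) * pd i (cS k) x := by
    filter_upwards [ev_coord (ev_diff hA)] with x hx
    exact pd_prod hx
  rw [N2.pd_congr e]
  have hA1 : ContDiffAt ℝ 1 (deriv A) r :=
    (contDiffAt_infty.1 hA 2).derivWithin (by norm_num)
  have hA1d : DifferentiableAt ℝ (deriv A) ((pt r) 0) := by
    rw [h0]; exact hA1.differentiableAt (by simp)
  have hAd : DifferentiableAt ℝ A ((pt r) 0) := by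
    rw [h0]; exact hA.differentiableAt (by simp)
  have hSd : DifferentiableAt ℝ (cS k) (pt r) := (cd_cS k).differentiable (by simp) _
  have hSd' : DifferentiableAt ℝ (pd i (cS k)) (pt r) :=
    (N2.pd_smooth (k := 1) (contDiffAt_infty.1 (cd_cS k).contDiffAt 2)).differentiableAt
      (by simp)
  have c1 : DifferentiableAt ℝ (fun x : Eu 3 => if i = 0 then deriv A (x 0) else 0) (pt r) := by
    split_ifs
    · exact diff_fn hA1d
    · exact differentiableAt_const _
  have m1 : DifferentiableAt ℝ (fun x : Eu 3 => (if i = 0 then deriv A (x 0) else 0) * cS k x)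
    (pt r) := c1.mul hSd
  have m2 : DifferentiableAt ℝ (fun x : Eu 3 => A (x 0) * pd i (cS k) x) (pt r) :=
    (diff_fn hAd).mul hSd'
  rw [N2.pd_add' m1 m2, N2.pd_mul' c1 hSd,
    N2.pd_mul' (diff_fn hAd) hSd', cS_pt, pd_cS_pt, pd_cS_pt, pd_pd_cS_pt, h0]
  have e1 : pd m (fun x : Eu 3 => if i = 0 then deriv A (x 0) else 0) (pt r) =
      if m = 0 ∧ i = 0 then deriv (deriv A) r else 0 := by
    by_cases h : i = 0
    · simp only [h, and_true, if_true]
      rw [pd_fn hA1d, h0]
    · simp only [h, and_false, if_false]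
      exact pd_const
  rw [e1]
  ring

end

/-! ## Christoffel symbols -/

section
variable {E F : ℝ → ℝ} {r : ℝ}

theorem cA_smooth (hE : ContDiffAt ℝ ∞ E r) (hF : ContDiffAt ℝ ∞ F r) (k : Fin 3) :
    ContDiffAt ℝ ∞ (cA E F k) r := by
  fin_cases k <;> assumption

theorem cA_pos (hE0 : 0 < E r) (hF0 : 0 < F r) (k : Fin 3) : 0 < cA E F k r := by
  fin_cases k <;> assumption

theorem dgv_pt (k : Fin 3) : dgv E F k (pt r) = cA E F k r := by
  rw [dgv_eq]
  simp only [cS_pt]
  simp [pt]

theorem dgv_smooth (hA : ∀ k, ContDiffAt ℝ ∞ (cA E F k) r) (k : Fin 3) :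
    ContDiffAt ℝ ∞ (dgv E F k) (pt r) := by
  rw [dgv_eq]
  have h0 : (pt r) 0 = r := by simp [pt]
  refine ContDiffAt.mul ?_ (cd_cS k).contDiffAt
  have := hA k
  rw [← h0] at this
  exact this.comp (pt r) (cd_coord 0).contDiffAt

theorem gam_diag {x : Eu 3} (h : ∀ k, dgv E F k x ≠ 0) (k i j : Fin 3) :
    Gam (DG E F) k i j x = 1 / 2 * (dgv E F k x)⁻¹ *
      ((if j = k then pd i (dgv E F k) x else 0) + (if i = k then pd j (dgv E F k) x else 0)
        - (if i = j then pd k (dgv E F i) x else 0)) := by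
  have hinv : (DG E F x)⁻¹ = Matrix.diagonal fun i => (dgv E F i x)⁻¹ := by
    apply Matrix.inv_eq_right_inv
    rw [DG, Matrix.diagonal_mul_diagonal]
    rw [← Matrix.diagonal_one]
    refine congrArg _ (funext fun i => ?_)
    exact mul_inv_cancel₀ (h i)
  have hpd : ∀ a i j, pd a (fun y => DG E F y i j) x =
      if i = j then pd a (dgv E F i) x else 0 := by
    intro a i j
    by_cases hij : i = j
    · subst hij
      simp only [DG, Matrix.diagonal_apply_eq, if_true]
    · simp only [DG, Matrix.diagonal_apply_ne _ hij, hij, if_false]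
      exact pd_const
  unfold Gam
  simp only [hinv, hpd, Matrix.diagonal_apply, ite_mul, zero_mul, Finset.sum_ite_eq,
    Finset.mem_univ, if_true]
  by_cases h1 : j = k <;> by_cases h2 : i = k <;> by_cases h3 : i = j <;>
    simp [h1, h2, h3] <;> try ring


/-- second derivatives of the entries at `pt r` -/
noncomputable def hh2 (A A2 : Fin 3 → ℝ) (m i k : Fin 3) : ℝ :=
  (if m = 0 ∧ i = 0 then A2 k else 0) + A k * cc k m i

/-- the Christoffel symbols at `pt r` -/
noncomputable def Gv (A A1 : Fin 3 → ℝ) (k i j : Fin 3) : ℝ :=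
  1 / 2 * (A k)⁻¹ * ((if j = k then (if i = 0 then A1 k else 0) else 0)
    + (if i = k then (if j = 0 then A1 k else 0) else 0)
    - (if i = j then (if k = 0 then A1 i else 0) else 0))

/-- their derivatives -/
noncomputable def dGv (A A1 A2 : Fin 3 → ℝ) (m k i j : Fin 3) : ℝ :=
  1 / 2 * (-(if m = 0 then A1 k else 0) * ((A k) ^ 2)⁻¹) *
    ((if j = k then (if i = 0 then A1 k else 0) else 0)
    + (if i = k then (if j = 0 then A1 k else 0) else 0)
    - (if i = j then (if k = 0 then A1 i else 0) else 0)) +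
  1 / 2 * (A k)⁻¹ * ((if j = k then hh2 A A2 m i k else 0) + (if i = k then hh2 A A2 m j k else 0)
    - (if i = j then hh2 A A2 m k i else 0))

theorem pd_dgv (hA : ∀ k, ContDiffAt ℝ ∞ (cA E F k) r) (i k : Fin 3) :
    pd i (dgv E F k) (pt r) = if i = 0 then deriv (cA E F k) r else 0 := by
  rw [dgv_eq]
  exact pd_prod_pt (hA k)

theorem pd_pd_dgv (hA : ∀ k, ContDiffAt ℝ ∞ (cA E F k) r) (m i k : Fin 3) :
    pd m (pd i (dgv E F k)) (pt r) =
      hh2 (fun k => cA E F k r) (fun k => deriv (deriv (cA E F k)) r) m i k := by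
  rw [dgv_eq]
  exact pd_pd_prod_pt (hA k)

theorem gam_pt (hA : ∀ k, ContDiffAt ℝ ∞ (cA E F k) r) (h0 : ∀ k, 0 < cA E F k r)
    (k i j : Fin 3) :
    Gam (DG E F) k i j (pt r) =
      Gv (fun k => cA E F k r) (fun k => deriv (cA E F k) r) k i j := by
  rw [gam_diag (fun k => by rw [dgv_pt]; exact (h0 k).ne')]
  simp only [pd_dgv hA, dgv_pt, Gv]

theorem pd_gam_pt (hA : ∀ k, ContDiffAt ℝ ∞ (cA E F k) r) (h0 : ∀ k, 0 < cA E F k r)
    (m k i j : Fin 3) :
    pd m (Gam (DG E F) k i j) (pt r) =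
      dGv (fun k => cA E F k r) (fun k => deriv (cA E F k) r)
        (fun k => deriv (deriv (cA E F k)) r) m k i j := by
  have hne : ∀ᶠ x in 𝓝 (pt r), ∀ k, dgv E F k x ≠ 0 := by
    rw [Filter.eventually_all]
    intro k
    have := (dgv_smooth hA k).continuousAt
    exact this.eventually_ne (by rw [dgv_pt]; exact (h0 k).ne')
  have e : Gam (DG E F) k i j =ᶠ[𝓝 (pt r)] fun x => (1 / 2 * (dgv E F k x)⁻¹) *
      ((if j = k then pd i (dgv E F k) x else 0) + (if i = k then pd j (dgv E F k) x else 0)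
        - (if i = j then pd k (dgv E F i) x else 0)) := by
    filter_upwards [hne] with x hx
    exact gam_diag hx k i j
  rw [N2.pd_congr e]
  have hd : ∀ k, DifferentiableAt ℝ (dgv E F k) (pt r) := fun k =>
    (dgv_smooth hA k).differentiableAt (by simp)
  have hpd : ∀ i k, DifferentiableAt ℝ (pd i (dgv E F k)) (pt r) := fun i k =>
    (N2.pd_smooth (k := 1) (contDiffAt_infty.1 (dgv_smooth hA k) 2)).differentiableAt (by simp)
  have hk : dgv E F k (pt r) ≠ 0 := by rw [dgv_pt]; exact (h0 k).ne'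
  have hi : DifferentiableAt ℝ (fun x => 1 / 2 * (dgv E F k x)⁻¹) (pt r) :=
    ((hd k).inv hk).const_mul _
  have t : ∀ (P : Prop) [Decidable P] (f : Eu 3 → ℝ), DifferentiableAt ℝ f (pt r) →
      DifferentiableAt ℝ (fun x => if P then f x else 0) (pt r) := by
    intro P _ f hf
    split_ifs
    · exact hf
    · exact differentiableAt_const _
  have tp : ∀ (P : Prop) [Decidable P] (f : Eu 3 → ℝ),
      pd m (fun x => if P then f x else 0) (pt r) = if P then pd m f (pt r) else 0 := by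
    intro P _ f
    split_ifs
    · rfl
    · exact pd_const
  have t1 := t (j = k) (pd i (dgv E F k)) (hpd i k)
  have t2 := t (i = k) (pd j (dgv E F k)) (hpd j k)
  have t3 := t (i = j) (pd k (dgv E F i)) (hpd k i)
  have t12 : DifferentiableAt ℝ (fun x => (if j = k then pd i (dgv E F k) x else 0)
      + (if i = k then pd j (dgv E F k) x else 0)) (pt r) := t1.add t2
  have t123 : DifferentiableAt ℝ (fun x => (if j = k then pd i (dgv E F k) x else 0)
      + (if i = k then pd j (dgv E F k) x else 0)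
      - (if i = j then pd k (dgv E F i) x else 0)) (pt r) := t12.sub t3
  rw [N2.pd_mul' hi t123]
  have e3 : pd m (fun x => (if j = k then pd i (dgv E F k) x else 0)
      + (if i = k then pd j (dgv E F k) x else 0)
      - (if i = j then pd k (dgv E F i) x else 0)) (pt r) =
      (if j = k then pd m (pd i (dgv E F k)) (pt r) else 0)
      + (if i = k then pd m (pd j (dgv E F k)) (pt r) else 0)
      - (if i = j then pd m (pd k (dgv E F i)) (pt r) else 0) := by
    have s1 : (fun x => (if j = k then pd i (dgv E F k) x else 0)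
      + (if i = k then pd j (dgv E F k) x else 0)
      - (if i = j then pd k (dgv E F i) x else 0)) =
      fun x => ((if j = k then pd i (dgv E F k) x else 0)
      + (if i = k then pd j (dgv E F k) x else 0))
      + (-(if i = j then pd k (dgv E F i) x else 0)) := by
      funext x; ring
    have t3n : DifferentiableAt ℝ (fun x => -(if i = j then pd k (dgv E F i) x else 0)) (pt r) :=
      t3.neg
    rw [s1, N2.pd_add' t12 t3n, N2.pd_add' t1 t2, pd_neg, tp, tp, tp]
    ring
  have e4 : pd m (fun x => 1 / 2 * (dgv E F k x)⁻¹) (pt r) =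
      1 / 2 * (-(pd m (dgv E F k) (pt r)) * ((dgv E F k (pt r)) ^ 2)⁻¹) := by
    have hφ : HasDerivAt (fun t : ℝ => 1 / 2 * t⁻¹)
        (1 / 2 * (-((dgv E F k (pt r)) ^ 2)⁻¹)) (dgv E F k (pt r)) :=
      (hasDerivAt_inv hk).const_mul _
    rw [pd_comp1 hφ (hd k)]
    ring
  rw [e3, e4]
  simp only [pd_pd_dgv hA, pd_dgv hA, dgv_pt, dGv]

/-- the curvature tensor at `pt r`, in numbers -/
theorem rm_pt (hA : ∀ k, ContDiffAt ℝ ∞ (cA E F k) r) (h0 : ∀ k, 0 < cA E F k r)
    (a b c d : Fin 3) :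
    N2.Rm (DG E F) a b c d (pt r) =
      let A := fun k => cA E F k r
      let A1 := fun k => deriv (cA E F k) r
      let A2 := fun k => deriv (deriv (cA E F k)) r
      dGv A A1 A2 c a b d - dGv A A1 A2 d a b c +
        ∑ e, (Gv A A1 a c e * Gv A A1 e b d - Gv A A1 a d e * Gv A A1 e b c) := by
  simp only [N2.Rm, pd_gam_pt hA h0, gam_pt hA h0]

/-- the Ricci curvatures of the warped metric -/
noncomputable def RR (E F : ℝ → ℝ) (r : ℝ) (i : Fin 3) : ℝ :=
  if i = 0 then 2 * Krf E F r else Krf E F r + Kff E F r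

/-- The Ricci tensor of the warped metric at `(r, 0, 0)`. -/
theorem Ric_DG {E F : ℝ → ℝ} {r : ℝ} (hE : ContDiffAt ℝ ∞ E r) (hF : ContDiffAt ℝ ∞ F r)
    (hE0 : 0 < E r) (hF0 : 0 < F r) (i j : Fin 3) :
    Ric (DG E F) (pt r) i j = if i = j then dgv E F i (pt r) * RR E F r i else 0 := by
  have hA := cA_smooth hE hF
  have h0 := cA_pos hE0 hF0
  rw [N2.Ric_eq]
  simp only [rm_pt hA h0, dgv_pt]
  have hE1 := hE0.ne'
  have hF1 := hF0.ne'
  clear hA h0 hE0 hF0
  fin_cases i <;> fin_cases j <;>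
    simp [dGv, Gv, hh2, cc, cA, Fin.sum_univ_three, Krf, Kff, RR] <;>
    field_simp <;> ring

end

end Pool.Agent.N564.RF3
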